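import Mathlib

/-!
Definitions for the second order Riesz boundary map on the Hardy spaces `H^p` of the half-space.
-/

open MeasureTheory Filter Topology
open scoped ENNReal FourierTransform

namespace Pool.Agent.MP_882061_an

noncomputable section

/-- The boundary space `R^d`. -/
abbrev Bd (d : ℕ) : Type := EuclideanSpace ℝ (Fin d)

/-- The space `R^(d+1)`; coordinate `0` is the height `t`. -/
abbrev Sp (d : ℕ) : Type := EuclideanSpace ℝ (Fin (d + 1))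

/-- The point `(t, x)` of `R^(d+1)`. -/
def pt {d : ℕ} (t : ℝ) (x : Bd d) : Sp d :=
  WithLp.toLp 2 (Fin.cons t (fun j => x j) : Fin (d + 1) → ℝ)

/-- The open upper half-space `t > 0`. -/
def upper (d : ℕ) : Set (Sp d) := {X | 0 < X 0}

/-- The non-tangential maximal function `Mu(x) = sup_{|y - x| < t} |u(t, y)|`. -/
def ntMax {d : ℕ} (u : Sp d → ℝ) (x : Bd d) : ℝ≥0∞ :=
  ⨆ (t : ℝ) (y : Bd d) (_ : ‖y - x‖ < t), ‖u (pt t y)‖ₑ

/-- The quasi-norm `‖u‖_{H^p} = ‖Mu‖_{L^p}`. -/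
def hpNorm {d : ℕ} (p : ℝ) (u : Sp d → ℝ) : ℝ≥0∞ :=
  (∫⁻ x, ntMax u x ^ p) ^ (1 / p)

/-- `u` is harmonic in the upper half-space and `Mu` is in `L^p`. -/
def MemHp {d : ℕ} (p : ℝ) (u : Sp d → ℝ) : Prop :=
  InnerProductSpace.HarmonicOnNhd u (upper d) ∧ hpNorm p u < ∞

/-- `g` is the boundary function of `u`: `u(t, x) → g(x)` as `t → 0+` for almost every `x`. -/
def HasBoundary {d : ℕ} (u : Sp d → ℝ) (g : Bd d → ℝ) : Prop :=
  ∀ᵐ x, Tendsto (fun t => u (pt t x)) (𝓝[>] 0) (𝓝 (g x))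

/-- `v = R_j u`: on every level `t > 0` both functions are integrable and the Fourier transform
of `v(t, .)` is `-i ξ_j / |ξ|` times the Fourier transform of `u(t, .)`. -/
def IsRiesz {d : ℕ} (j : Fin d) (u v : Sp d → ℝ) : Prop :=
  ∀ t : ℝ, 0 < t →
    Integrable (fun x => u (pt t x)) ∧ Integrable (fun x => v (pt t x)) ∧
      ∀ ξ : Bd d, ξ ≠ 0 →
        𝓕 (fun x : Bd d => (v (pt t x) : ℂ)) ξ =
          (-Complex.I * ((ξ j / ‖ξ‖ : ℝ) : ℂ)) * 𝓕 (fun x : Bd d => (u (pt t x) : ℂ)) ξ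

/-- `u` is in `H^p` and `T_2 u = (g₁ j, g₂ k l)`, for all `j` and all `k ≤ l`. -/
def IsT2 {d : ℕ} (p : ℝ) (u : Sp d → ℝ) (g₁ : Fin d → Bd d → ℝ)
    (g₂ : Fin d → Fin d → Bd d → ℝ) : Prop :=
  MemHp p u ∧ ∃ (v : Fin d → Sp d → ℝ) (w : Fin d → Fin d → Sp d → ℝ),
    (∀ j, MemHp p (v j) ∧ IsRiesz j u (v j) ∧ HasBoundary (v j) (g₁ j)) ∧
      ∀ k l, k ≤ l → MemHp p (w k l) ∧ IsRiesz k (v l) (w k l) ∧ HasBoundary (w k l) (g₂ k l)

/-- `T_2` is an isomorphic embedding. -/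
def T2Embedding (d : ℕ) (p : ℝ) : Prop :=
  ∃ c : ℝ, 0 < c ∧ ∀ (u : Sp d → ℝ) (g₁ : Fin d → Bd d → ℝ) (g₂ : Fin d → Fin d → Bd d → ℝ),
    IsT2 p u g₁ g₂ →
      ENNReal.ofReal c * hpNorm p u ≤
        (∑ j, eLpNorm (g₁ j) (ENNReal.ofReal p) volume) +
          ∑ k, ∑ l with k ≤ l, eLpNorm (g₂ k l) (ENNReal.ofReal p) volume

/-- `T_2` is one-to-one: its kernel is zero. -/
def T2Injective (d : ℕ) (p : ℝ) : Prop :=
  ∀ u : Sp d → ℝ, IsT2 p u 0 0 → ∀ X ∈ upper d, u X = 0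

/-- `T_2` maps onto `(L^p)^(d(d+3)/2)`. -/
def T2Onto (d : ℕ) (p : ℝ) : Prop :=
  ∀ (g₁ : Fin d → Bd d → ℝ) (g₂ : Fin d → Fin d → Bd d → ℝ),
    (∀ j, MemLp (g₁ j) (ENNReal.ofReal p) volume) →
      (∀ k l, k ≤ l → MemLp (g₂ k l) (ENNReal.ofReal p) volume) →
        ∃ u : Sp d → ℝ, IsT2 p u g₁ g₂

end

end Pool.Agent.MP_882061_an
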